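import Pool.Agent.CH76.LemU
import Pool.Agent.CH76.Main
import Pool.Agent.CH76.DatM
import Pool.Agent.CH76.HC

/-!
# The circuit analogue of the Hirsch conjecture is false (MP_c5fcd0_co, Q1)

There are a matrix `A` with `76` rows and `152` columns of full row rank and a right hand side `b` such that
`P = {x | A x = b, x ≥ 0}` is a polytope with two vertices `x`, `y` for which every circuit walk from
`x` to `y` has more than `f - d` steps (`f` facets, `d = dim P`).

Structure of the proof (all definitions used in the statement are in `Pool/Agent/CH74/PolyDefs.lean`).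
* `CH76/Dat*`, `CH76/HC`: exact data in `ℝ^5`: a polytope with `8` rows and `18` vertices.
* `CH76/SqEx`, ..., `CH76/Step4`, `CH76/Main`: with `72` more functionals there is no robust walk with four
  points (cylinder model of a `6`-dimensional spindle with `8 + 72` facets).
* `CH76/LemU`: the spindle of dimension `6` with the rows `(-c i, 1)`, `(δ y j, 1)`, `δ` small, has no weak
  circuit walk which meets a new target facet in every step and keeps the previous ones.
* `CH74/Gen`, `CH74/Lift`, `CH74/LiftMain`, `CH74/Std`: the lifting to a polytope of dimension `76` with `152`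
  rows (product with two simplices, tilted; generic target vertex; compactness).
-/

namespace Pool.Agent.Results.MP_c5fcd0_co.CircuitHirschCounterexample

open Pool.Agent.CH74

theorem result : ∃ (m n : ℕ) (A : Matrix (Fin m) (Fin n) ℝ) (b : Fin m → ℝ) (x y : Fin n → ℝ),
    A.rank = m ∧ Bornology.IsBounded (Poly A b) ∧ {F | IsFacet (Poly A b) F}.Finite ∧
      x ∈ (Poly A b).extremePoints ℝ ∧ y ∈ (Poly A b).extremePoints ℝ ∧
        ∀ (k : ℕ) (p : ℕ → Fin n → ℝ), IsCircuitWalk A b k p → p 0 = x → p k = y →
          (numFacets (Poly A b) : ℤ) - dim (Poly A b) < k := by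
  obtain ⟨y, hy, hno⟩ := Pool.Agent.CH76.exists_rnw (Pool.Agent.CH76.datOf Pool.Agent.CH76.cR_hC)
  obtain ⟨A, b, x', y', h⟩ := Pool.Agent.CH76.violates_of_rnw_card
    (Pool.Agent.CH76.datOf Pool.Agent.CH76.cR_hC).c y (k := 4) (n := 5) (by norm_num) (by norm_num)
    (Pool.Agent.CH76.datOf Pool.Agent.CH76.cR_hC).hc hy hno 76 (by simp)
  exact ⟨76, 152, A, b, x', y', h⟩

end Pool.Agent.Results.MP_c5fcd0_co.CircuitHirschCounterexample
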