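import Pool.Agent.CDN.Walk
import Pool.Agent.CDN.Count
import Pool.Agent.CDN.Vertex

set_option autoImplicit false

namespace Pool.Agent.Results.MP_c5fcd0_co.DualNetworkFlow

open scoped Matrix

/-- the polyhedron `{x | A x = b, x ≥ 0}` -/
def Poly {m : ℕ} {E : Type} [Fintype E] (A : Matrix (Fin m) E ℝ) (b : Fin m → ℝ) :
    Set (E → ℝ) :=
  {x | A *ᵥ x = b ∧ ∀ e, 0 ≤ x e}

/-- the elementary vectors (circuits) of `A` -/
def Elementary {m : ℕ} {E : Type} [Fintype E] (A : Matrix (Fin m) E ℝ) (g : E → ℝ) : Prop :=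
  A *ᵥ g = 0 ∧ g ≠ 0 ∧
    ∀ k : E → ℝ, A *ᵥ k = 0 → k ≠ 0 → ¬ Function.support k ⊂ Function.support g

/-- there is a circuit walk with `k` maximal steps from `x` to `y` -/
def CircuitWalk {m : ℕ} {E : Type} [Fintype E] (A : Matrix (Fin m) E ℝ) (b : Fin m → ℝ)
    (k : ℕ) (x y : E → ℝ) : Prop :=
  ∃ w : ℕ → E → ℝ, w 0 = x ∧ w k = y ∧ (∀ i ≤ k, w i ∈ Poly A b) ∧
    ∀ i < k, Elementary A (w (i + 1) - w i) ∧
      ∀ ε : ℝ, 0 < ε → w i + (1 + ε) • (w (i + 1) - w i) ∉ Poly A b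

/-- a node with at least one leaving and at least one entering arc -/
def TransitNode {V E : Type} (s t : E → V) (v : V) : Prop := (∃ e, s e = v) ∧ ∃ e, t e = v

/-- Dual network flow polyhedra. `V`, `E` are the nodes and the arcs of a connected digraph
(tails `s`, heads `t`) and the kernel of `A` is the space of the tensions
`e ↦ h (t e) - h (s e)`. -/
theorem result {V E : Type} [Fintype V] [Fintype E] (s t : E → V)
    (hconn : ∀ u v : V, Relation.ReflTransGen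
      (fun a b => ∃ e, (s e = a ∧ t e = b) ∨ (s e = b ∧ t e = a)) u v)
    {m : ℕ} (A : Matrix (Fin m) E ℝ) (b : Fin m → ℝ)
    (hA : ∀ g : E → ℝ, A *ᵥ g = 0 ↔ ∃ h : V → ℝ, ∀ e, g e = h (t e) - h (s e))
    (x y : E → ℝ) (hx : x ∈ Poly A b) (hy : y ∈ Set.extremePoints ℝ (Poly A b)) :
    ∃ k : ℕ, k ≤ Fintype.card V ^ 2 / 4 ∧
      k ≤ Fintype.card V - 1 + {v | TransitNode s t v}.ncard * (Fintype.card V / 2 - 1) ∧
      CircuitWalk A b k x y := by
  classical
  have hP : Poly A b = CDN.PolyY s t y := by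
    ext z
    have hyA : A *ᵥ y = b := hy.1.1
    constructor
    · rintro ⟨h1, h2⟩
      refine ⟨fun e => h2 e, ?_⟩
      have h3 : A *ᵥ (z - y) = 0 := by rw [Matrix.mulVec_sub, h1, hyA, sub_self]
      obtain ⟨h, hh⟩ := (hA _).1 h3
      refine ⟨h, ?_⟩
      funext e
      have := hh e
      simp only [Pi.sub_apply] at this
      simp only [Pi.add_apply, CDN.tens]
      linarith
    · rintro ⟨h1, h, hh⟩
      refine ⟨?_, fun e => h1 e⟩
      have h3 : A *ᵥ (CDN.tens s t h) = 0 := (hA _).2 ⟨h, fun e => rfl⟩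
      rw [hh, Matrix.mulVec_add, h3, hyA, add_zero]
  have hE : ∀ g, CDN.ElemT s t g → Elementary A g := by
    rintro g ⟨⟨h, rfl⟩, h1, h2⟩
    refine ⟨(hA _).2 ⟨h, fun e => rfl⟩, h1, ?_⟩
    intro k hk hk0 hsub
    obtain ⟨h', hh'⟩ := (hA k).1 hk
    have hk' : k = CDN.tens s t h' := funext hh'
    subst hk'
    exact hsub.2 (h2 h' hk0 hsub.1)
  have hG : CDN.GConn s t := by
    intro u v
    exact hconn u v
  by_cases hV : Nonempty V
  swap
  · -- no nodes, hence no arcs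
    have hEm : IsEmpty E := ⟨fun e => hV ⟨s e⟩⟩
    refine ⟨0, Nat.zero_le _, Nat.zero_le _, fun _ => x, rfl, ?_, fun _ _ => hx, fun i hi => absurd hi (Nat.not_lt_zero i)⟩
    funext e
    exact hEm.elim e
  have hy' : y ∈ Set.extremePoints ℝ (CDN.PolyY s t y) := hP ▸ hy
  have hy0 : 0 ≤ y := fun e => hy.1.2 e
  obtain ⟨r, τ, ρ, hρ, hmin, h2⟩ := CDN.good_root (CDN.ZArc s t y)
    (CDN.vertex_conn s t hG y hy')
  have hx' : x ∈ CDN.PolyY s t y := hP ▸ hx
  obtain ⟨hx0, h, rfl⟩ := hx'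
  obtain ⟨h', j, hh0, hh1, hj, hw⟩ := CDN.all_phases s t hG y hy0 τ r h hx0 ρ
  have hconst : ∀ v, h' v = h' r := fun v => hh1 v (by rw [hρ]; trivial)
  have hfin : y + CDN.tens s t h' = y := by
    funext e
    simp only [Pi.add_apply, CDN.tens]
    rw [hconst (t e), hconst (s e)]
    ring
  rw [hfin] at hw
  have hcount := CDN.count (fun k => CDN.lay (CDN.ZArc s t y) τ {r} k)
    {v | CDN.Transit s t v} r ρ (fun k => CDN.lay_mono_succ _ _ _ k) rfl hρ hmin h2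
  have hjle := hj.trans hcount
  rw [Nat.card_eq_fintype_card] at hjle
  refine ⟨j, hjle.trans (min_le_left _ _), hjle.trans (min_le_right _ _), ?_⟩
  obtain ⟨w, hw0, hwj, hst⟩ := hw
  refine ⟨w, hw0, hwj, ?_, ?_⟩
  · intro i hi
    rcases Nat.lt_or_eq_of_le hi with hi | rfl
    · rw [hP]; exact (hst i hi).1
    · rw [hwj]; exact hy.1
  · intro i hi
    refine ⟨hE _ (hst i hi).2.2.1, ?_⟩
    rw [hP]
    exact (hst i hi).2.2.2

end Pool.Agent.Results.MP_c5fcd0_co.DualNetworkFlow
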